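import Mathlib
import Pool.Agent.H60W.Fin
import Pool.Agent.H60W.Lim
import Pool.Agent.H60S.Pol
import Pool.Agent.H60S.Rat

/-!
# Entire curves in all varieties of log-general type of bounded degree

Let `N`, `d_1, ..., d_s`, `q` be given. There are numbers `C` and `D` with the following property. Let
`U` be the complement of the hypersurface `Q = 0` of degree `q` in the projective variety with the
equations `F_1 = ... = F_s = 0` of the degrees `d_1, ..., d_s`. If `U` is of log-general type, or only
not covered by curves with the source `G_m`, then there is a form `A` of degree at most `D` which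
does not vanish on `U` such that all nonconstant entire curves `f` in this projective variety which
are contained neither in `A = 0` nor in `Q = 0` satisfy

`T_f(r) ≤ C (N₁(W, r) + N₁(Q(f), r))`

outside a set of radii of finite measure. Here `W` is the Wronskian of a basis of the linear span of
the coordinates of `f`, and `N₁` counts every zero once. The last term vanishes for entire curves in
`U`. So all entire curves in `U` with few flexes factor over a proper closed subset of bounded
degree, with a bound for the number of flexes which is the same for all `U`. If `f = P(G)` with entire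
functions `G_0, ..., G_M` and forms `P` of degree `e`, one can use the Wronskian of `G` instead of
that of `f`, with the additional term `log⁺ T_G(r)`.

For arbitrary `U` there are `B` and `C` such that every nonconstant entire curve in the projective
algebraic set, not in `Q = 0`, satisfies these inequalities unless through all its points, outside a
discrete closed set of parameters, pass curves with the source `G_m` in `U` of degree at most `B`.

Proof. For a sequence of counterexamples with `C = 1, 2, ...` the coordinates of the curves satisfy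
linear differential equations with coefficients of small characteristic (lemma on the logarithmic
derivative, uniformly in the sequence). In the ultraproduct one gets a point of the limit variety
over a Picard-Vessiot extension of the field of the small sequences, which gives a curve with the
source `G_m` through a generic point of the closure of the limit of the entire curves. By the theorem
of Chevalley there are such curves of bounded degree through all points of a nonempty open set, and
these curves descend to the varieties of the sequence. Curves of logarithmic growth are rational, this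
removes the term `log r`. The bound for the degree of `A` is proved with ultraproducts as well.
-/

set_option autoImplicit false

namespace Pool.Agent.Results.MP_c69980_ag.BoundedDegreeFamilies

open MvPolynomial MeasureTheory Filter

/-- The characteristic function of the curve with the homogeneous coordinates `g`, up to a constant:
the mean of the logarithm of the maximum norm over the circle of the radius `r`. -/
noncomputable def T {N : ℕ} (g : ℂ → Fin N → ℂ) (r : ℝ) : ℝ :=
  Real.circleAverage (fun z => Real.log ‖g z‖) 0 r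

/-- The counting function of the zeros of `h`; every zero is counted once. -/
noncomputable def N₁ (h : ℂ → ℂ) (r : ℝ) : ℝ :=
  ∑ᶠ z ∈ {z : ℂ | h z = 0 ∧ ‖z‖ ≤ r}, if z = 0 then Real.log r else Real.log (r / ‖z‖)

/-- The Wronskian determinant. -/
noncomputable def W {n : ℕ} (g : Fin n → ℂ → ℂ) (z : ℂ) : ℂ :=
  Matrix.det (Matrix.of fun i j : Fin n => iteratedDeriv i (g j) z)

/-- `g` is a basis of the linear span of the entire functions `G k`. -/
structure Basis {m n : ℕ} (G : ℂ → Fin m → ℂ) (g : Fin n → ℂ → ℂ) : Prop where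
  ind : LinearIndependent ℂ g
  span : Submodule.span ℂ (Set.range g) = Submodule.span ℂ (Set.range fun k z => G z k)

/-- `S r ≤ X r` for all `r ≥ 1` outside a set of finite measure. -/
def Outside (S X : ℝ → ℝ) : Prop :=
  ∃ E : Set ℝ, volume E < ⊤ ∧ ∀ r, 1 ≤ r → r ∉ E → S r ≤ X r

/-- `f` is a nonconstant entire curve in the projective algebraic set `F = 0`. -/
structure CurveIn {N s : ℕ} (F : Fin s → MvPolynomial (Fin N) ℂ) (f : ℂ → Fin N → ℂ) : Prop where
  hol : Differentiable ℂ f
  ne : ∀ z, f z ≠ 0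
  on : ∀ i z, eval (f z) (F i) = 0
  nonconst : ¬ ∀ z, ∃ c : ℂ, f z = c • f 0

/-- `f = P(G)`, where the `G k` are entire and the `P j` are forms of degree `e > 0`. -/
structure Image {N M : ℕ} (e : ℕ) (P : Fin N → MvPolynomial (Fin (M + 1)) ℂ)
    (G : ℂ → Fin (M + 1) → ℂ) (f : ℂ → Fin N → ℂ) : Prop where
  pos : 0 < e
  hol : Differentiable ℂ G
  hom : ∀ j, (P j).IsHomogeneous e
  eq : ∀ z j, f z j = eval (G z) (P j)

variable {N s : ℕ}

/-- The form `A` does not vanish identically along `f`. -/
def Off (A : MvPolynomial (Fin (N + 1)) ℂ) (f : ℂ → Fin (N + 1) → ℂ) : Prop :=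
  ∃ z, eval (f z) A ≠ 0

/-- The inequalities with the constant `C`:

* `T_f(r) ≤ C (N₁(W, r) + N₁(Q(f), r))`, where `W` is the Wronskian of a basis of the span of the
  coordinates of `f`;
* if `f = P(G)` with entire functions `G_0, ..., G_M` and forms `P` of degree `e`, then
  `T_f(r) ≤ C (N₁(W, r) + N₁(Q(f), r) + log⁺ T_G(r))`, where `W` is the Wronskian of a basis of the
  span of the functions `G`. -/
def Bounds (M e : ℕ) (Q : MvPolynomial (Fin (N + 1)) ℂ) (C : ℝ) (f : ℂ → Fin (N + 1) → ℂ) : Prop :=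
  (∀ (k : ℕ) (g : Fin k → ℂ → ℂ), Basis f g →
    Outside (T f) fun r => C * (N₁ (W g) r + N₁ (fun z => eval (f z) Q) r)) ∧
  ∀ (P : Fin (N + 1) → MvPolynomial (Fin (M + 1)) ℂ) (G : ℂ → Fin (M + 1) → ℂ),
    Image e P G f → ∀ (k : ℕ) (g : Fin k → ℂ → ℂ), Basis G g →
      Outside (T f) fun r => C * (N₁ (W g) r + N₁ (fun z => eval (f z) Q) r +
        Real.posLog (T G r))

/-- The polynomials `p` of degree at most `B` give a nonconstant morphism from the multiplicative
group to the complement of `Q = 0` in `F = 0`. -/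
structure Gm (F : Fin s → MvPolynomial (Fin (N + 1)) ℂ) (Q : MvPolynomial (Fin (N + 1)) ℂ) (B : ℕ)
    (p : Fin (N + 1) → Polynomial ℂ) : Prop where
  deg : ∀ j, (p j).natDegree ≤ B
  on : ∀ i t, eval (fun j => (p j).eval t) (F i) = 0
  off : ∀ t, t ≠ 0 → eval (fun j => (p j).eval t) Q ≠ 0
  nonconst : ∃ s t j k, (p j).eval s * (p k).eval t ≠ (p k).eval s * (p j).eval t

/-- The ideal of the polynomials which vanish on `F = 0`. -/
def ideal (F : Fin s → MvPolynomial (Fin (N + 1)) ℂ) : Ideal (MvPolynomial (Fin (N + 1)) ℂ) where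
  carrier := {G | ∀ v, (∀ i, eval v (F i) = 0) → eval v G = 0}
  zero_mem' := fun v _ => map_zero _
  add_mem' := fun {a b} ha hb v hv => by rw [map_add, ha v hv, hb v hv, add_zero]
  smul_mem' := fun c x hx v hv => by rw [smul_eq_mul, map_mul, hx v hv, mul_zero]

/-- The complement `U` of `Q = 0` in `F = 0` is of log-general type; `K` is the function field and `y`
the generic point of `U`, and the places `OffQ Q q y` are those without centre on `U`. -/
def LogGeneral (F : Fin s → MvPolynomial (Fin (N + 1)) ℂ) (Q : MvPolynomial (Fin (N + 1)) ℂ)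
    (q : ℕ) : Prop :=
  ∃ (K : Type) (_ : Field K) (_ : Algebra ℂ K) (w : ℕ) (y : Fin (N + 1) → K),
    TH143.GT.FunField (ideal F) Q K w y ∧ W602.GT.LogGeneralType ℂ K w (W603.GR.OffQ Q q y)

/-- For each `n` the nonconstant morphisms of degree at most `n` from the multiplicative group to
the complement of `Q = 0` in `F = 0` have images in a proper closed subset. -/
def Thin (F : Fin s → MvPolynomial (Fin (N + 1)) ℂ) (Q : MvPolynomial (Fin (N + 1)) ℂ) : Prop :=
  ∀ n, ∃ G : MvPolynomial (Fin (N + 1)) ℂ, (∃ m, G.IsHomogeneous m) ∧ G ∉ ideal F ∧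
    ∀ p, Gm F Q n p → ∀ t, eval (fun j => (p j).eval t) G = 0

theorem N₁_eq {h : ℂ → ℂ} {r : ℝ} (hr : 1 ≤ r) (hfin : {z : ℂ | h z = 0 ∧ ‖z‖ ≤ r}.Finite) :
    N₁ h r = N131.SR.Nb h r := by
  classical
  have hF : ∀ z, z ∈ hfin.toFinset ↔ h z = 0 ∧ ‖z‖ ≤ r := fun z => by
    rw [Set.Finite.mem_toFinset]
    rfl
  rw [N131.SR.Nb_eq r hfin.toFinset hF]
  unfold N₁
  rw [finsum_mem_eq_finite_toFinset_sum _ hfin]
  have h1 : ∀ z ∈ hfin.toFinset, (if z = 0 then Real.log r else Real.log (r / ‖z‖)) =
      Real.log (r * ‖z‖⁻¹) + if z = 0 then Real.log r else 0 := by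
    intro z _
    by_cases h : z = 0
    · simp [h]
    · simp [h, div_eq_mul_inv]
  rw [Finset.sum_congr rfl h1, Finset.sum_add_distrib, Finset.sum_ite_eq']
  congr 1
  by_cases h0 : h 0 = 0
  · rw [if_pos ((hF 0).2 ⟨h0, by rw [norm_zero]; linarith⟩),
      Set.indicator_of_mem (show (0 : ℂ) ∈ {z : ℂ | h z = 0} from h0)]
    simp
  · rw [if_neg fun h2 => h0 ((hF 0).1 h2).1,
      Set.indicator_of_notMem (show (0 : ℂ) ∉ {z : ℂ | h z = 0} from h0)]
    simp

/-- the curve in the notation of the proof -/
theorem wr {N M n e : ℕ} (c : N131.SU.Crv M N n e) {r : ℝ} (hr : 1 ≤ r) :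
    N₁ (W c.g) r = N131.SR.Nb (N131.SR.Wr c.g) r := by
  obtain ⟨a, b, ha, hb, hgd, hW⟩ := c.D.data
  exact N₁_eq hr (N131.SR.zeros_finite (N131.SR.Wr_diff hgd) hW r)

/-- polynomials without zeros in the punctured plane -/
theorem mono {R : Polynomial ℂ} (h : ∀ t, t ≠ 0 → R.eval t ≠ 0) :
    ∃ (c : ℂ) (k : ℕ), c ≠ 0 ∧ R = Polynomial.C c * Polynomial.X ^ k := by
  have hR : R ≠ 0 := by
    rintro rfl
    exact h 1 one_ne_zero Polynomial.eval_zero
  obtain ⟨S, hS, hnd⟩ := Polynomial.exists_eq_pow_rootMultiplicity_mul_and_not_dvd R hR 0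
  rw [Polynomial.C_0, sub_zero] at hS hnd
  have h0 : ∀ t, S.eval t ≠ 0 := by
    intro t ht
    by_cases h1 : t = 0
    · apply hnd
      rw [h1] at ht
      rw [Polynomial.X_dvd_iff, Polynomial.coeff_zero_eq_eval_zero]
      exact ht
    · apply h t h1
      rw [hS, Polynomial.eval_mul, ht, mul_zero]
  have h2 : S.degree ≤ 0 := by
    by_contra hcon
    obtain ⟨z, hz⟩ := IsAlgClosed.exists_root S (fun h => hcon h.le)
    exact h0 z hz
  refine ⟨S.coeff 0, R.rootMultiplicity 0, fun h3 => ?_, ?_⟩
  · apply h0 0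
    rw [← Polynomial.coeff_zero_eq_eval_zero, h3]
  · rw [← Polynomial.eq_C_of_degree_le_zero h2, mul_comm]
    exact hS

theorem Gm.of {F : Fin s → MvPolynomial (Fin (N + 1)) ℂ} {Q : MvPolynomial (Fin (N + 1)) ℂ}
    {B : ℕ} {v : Fin (N + 1) → ℂ} {p : Fin (N + 1) → Polynomial ℂ} (h : H60W.GmV F Q B v p) :
    Gm F Q B p := by
  refine ⟨h.1, fun i t => ?_, fun t ht => ?_, V1153.UG.nc_of_wr h.2.2.2.1⟩
  · rw [← V1153.UG.eval_aeval, h.2.1 i, Polynomial.eval_zero]
  · obtain ⟨c, k, hc, hk⟩ := h.2.2.1
    rw [← V1153.UG.eval_aeval, hk, Polynomial.eval_mul, Polynomial.eval_C, Polynomial.eval_pow,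
      Polynomial.eval_X]
    exact mul_ne_zero hc (pow_ne_zero _ ht)

theorem ideal_eq (F : Fin s → MvPolynomial (Fin (N + 1)) ℂ) : ideal F = H60W.idl F := rfl

theorem not_ruled {F : Fin s → MvPolynomial (Fin (N + 1)) ℂ} {Q : MvPolynomial (Fin (N + 1)) ℂ}
    {d : Fin s → ℕ} (hF : ∀ i, (F i).IsHomogeneous (d i)) {q : ℕ} (hQ : Q.IsHomogeneous q)
    (hI : (ideal F).IsPrime) (h : LogGeneral F Q q ∨ Thin F Q) :
    ¬ V1153.UG.GmRuled (H60W.idl F) Q := by
  rcases h with ⟨K, _, _, w, y, hy, hL⟩ | h
  · exact V1153.UG.not_ruled_of_lgt hQ hy hL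
  · refine (V1153.UG.thin_iff (I := H60W.idl F) hI hQ).1 fun n => ?_
    obtain ⟨G, hGh, hG, hall⟩ := h n
    refine ⟨G, hGh, hG, fun p hp => hall p ⟨hp.deg, fun i t => ?_, fun t ht => ?_, hp.nc⟩⟩
    · rw [← V1153.UG.eval_aeval, hp.mem (F i) (fun v hv => hv i) ⟨_, hF i⟩, Polynomial.eval_zero]
    · obtain ⟨c, k, hc, hk⟩ := hp.off
      rw [← V1153.UG.eval_aeval, hk, Polynomial.eval_mul, Polynomial.eval_C, Polynomial.eval_pow,
        Polynomial.eval_X]
      exact mul_ne_zero hc (pow_ne_zero _ ht)

/-- the dichotomy in terms of the curves of the proof -/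
theorem dichotomy (N s : ℕ) (d : Fin s → ℕ) (q M e : ℕ) : ∃ (B : ℕ) (C : ℝ),
    ∀ (F : Fin s → MvPolynomial (Fin (N + 1)) ℂ) (Q : MvPolynomial (Fin (N + 1)) ℂ),
      (∀ i, (F i).IsHomogeneous (d i)) → Q.IsHomogeneous q →
      ∀ f : ℂ → Fin (N + 1) → ℂ, CurveIn F f → Off Q f →
        (∃ᶠ z in codiscrete ℂ, ∀ p, ¬ H60W.GmV F Q B (f z) p) → Bounds M e Q C f := by
  have hRAT := Pool.Agent.H60S.t_RAT Pool.Agent.H60S.t_POL
  obtain ⟨B₁, C₁, hC₁, h1⟩ := Pool.Agent.H60W.dich_wr hRAT N s d q
  obtain ⟨B₂, C₂, hC₂, h2⟩ := Pool.Agent.H60W.dich hRAT M N e s d q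
  refine ⟨max B₁ B₂, max C₁ C₂, fun F Q hF hQ f hf hfQ hfr => ?_⟩
  have hfd : ∀ j, Differentiable ℂ fun z => f z j := fun j => differentiable_pi.1 hf.hol j
  have hf0 : ∀ z, ∃ j, f z j ≠ 0 := by
    intro z
    by_contra hcon
    push Not at hcon
    exact hf.ne z (funext hcon)
  have hnc : ∃ s t j k, f s j * f t k ≠ f s k * f t j := by
    by_contra hcon
    apply hf.nonconst
    intro z
    apply Pool.Agent.V1153.GH.prop_of hf.ne
    rintro ⟨s, t, j, k, hne⟩
    exact hcon ⟨s, t, j, k, hne⟩
  have hQd : Differentiable ℂ fun z => eval (f z) Q := N131.SR.form_diff hfd Q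
  have hNQ : ∀ r, 1 ≤ r → N₁ (fun z => eval (f z) Q) r =
      N131.SR.Nb (fun z => eval (f z) Q) r := fun r hr =>
    N₁_eq hr (N131.SR.zeros_finite hQd hfQ r)
  refine ⟨fun k g hg => ?_, fun P G hP k g hg => ?_⟩
  · obtain ⟨E, hE, hb⟩ := h1 F Q hF hQ (fun j z => f z j) hfd hf0 hf.on hfQ hnc
      (hfr.mono fun z hz p hp => hz p ⟨fun j => (hp.1 j).trans (le_max_left _ _), hp.2⟩)
      k g hg.ind hg.span
    let c : N131.SU.Crv N N k 1 := ⟨fun j z => f z j, fun j => X j, g, ⟨hfd, one_pos,
      fun j => isHomogeneous_X _ _, fun z => by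
        obtain ⟨j, hj⟩ := hf0 z
        refine ⟨j, ?_⟩
        change eval (fun k => f z k) (X j) ≠ 0
        rwa [eval_X], hg.ind, hg.span⟩⟩
    refine ⟨E, hE, fun r hr hrE => ?_⟩
    have h4 := hb r hr hrE
    have h5 : N₁ (W g) r = N131.SR.Nb (N131.SR.Wr g) r := wr c hr
    beta_reduce
    rw [h5, hNQ r hr]
    exact le_trans h4 (mul_le_mul_of_nonneg_right (le_max_left _ _)
      (add_nonneg (N131.SR.Nb_nonneg hr) (N131.SR.Nb_nonneg hr)))
  · let c : N131.SU.Crv M N k e := ⟨fun j z => G z j, P, g, ⟨fun j =>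
      differentiable_pi.1 hP.hol j, hP.pos, hP.hom, fun z => by
        obtain ⟨j, hj⟩ := hf0 z
        refine ⟨j, ?_⟩
        change eval (fun k => G z k) (P j) ≠ 0
        have h3 := hP.eq z j
        rwa [h3] at hj, hg.ind, hg.span⟩⟩
    have hcf : c.f = fun j z => f z j := by
      funext j z
      exact (hP.eq z j).symm
    obtain ⟨E, hE, hb⟩ := h2 F Q hF hQ k c (by rw [hcf]; exact hf.on) (by rw [hcf]; exact hfQ)
      (by rw [hcf]; exact hnc)
      (by
        rw [hcf]
        exact hfr.mono fun z hz p hp =>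
          hz p ⟨fun j => (hp.1 j).trans (le_max_right _ _), hp.2⟩)
    refine ⟨E, hE, fun r hr hrE => ?_⟩
    have h4 := hb r hr hrE
    have h5 : N₁ (W g) r = N131.SR.Nb (N131.SR.Wr g) r := wr c hr
    rw [hcf] at h4
    beta_reduce
    rw [h5, hNQ r hr]
    exact le_trans h4 (mul_le_mul_of_nonneg_right (le_max_right _ _)
      (add_nonneg (add_nonneg (N131.SR.Nb_nonneg hr) (N131.SR.Nb_nonneg hr))
        Real.posLog_nonneg))

/-- **All quasi-projective varieties of bounded degree.** Let `N`, the degrees `d i` and `q`, and `M`,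
`e` be given. There are `B`, `C`, `D` such that for all forms `F i` of degree `d i` and `Q` of
degree `q` in `N + 1` variables, with `U` the complement of `Q = 0` in `F = 0`:

(1) for every nonconstant entire curve `f` in the projective algebraic set `F = 0`, not contained in
`Q = 0`, the inequalities `Bounds` hold with the constant `C`, or for all `z` outside a discrete
closed set there is a nonconstant morphism `p` of degree at most `B` from the multiplicative group to
`U` with `p(1) = f(z)`;

(2) if `F = 0` is irreducible and `U` is of log-general type, or only not covered by the morphisms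
of bounded degree from the multiplicative group, then there is a form `A` of degree at most `D`
which does not vanish on `F = 0` such that the inequalities hold with the constant `C` for all
nonconstant entire curves in `F = 0` contained neither in `Q = 0` nor in `A = 0`. -/
theorem result (N s : ℕ) (d : Fin s → ℕ) (q M e : ℕ) : ∃ (B : ℕ) (C : ℝ) (D : ℕ),
    ∀ (F : Fin s → MvPolynomial (Fin (N + 1)) ℂ) (Q : MvPolynomial (Fin (N + 1)) ℂ),
      (∀ i, (F i).IsHomogeneous (d i)) → Q.IsHomogeneous q →
      (∀ f : ℂ → Fin (N + 1) → ℂ, CurveIn F f → Off Q f → Bounds M e Q C f ∨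
        ∀ᶠ z in codiscrete ℂ, ∃ p, Gm F Q B p ∧ ∀ j, (p j).eval 1 = f z j) ∧
      ((ideal F).IsPrime → LogGeneral F Q q ∨ Thin F Q →
        ∃ (A : MvPolynomial (Fin (N + 1)) ℂ) (m : ℕ), m ≤ D ∧ A.IsHomogeneous m ∧ A ∉ ideal F ∧
          ∀ f : ℂ → Fin (N + 1) → ℂ, CurveIn F f → Off Q f → Off A f → Bounds M e Q C f) := by
  obtain ⟨B, C, h⟩ := dichotomy N s d q M e
  obtain ⟨D, hD⟩ := H60W.thin_unif N s d q B
  refine ⟨B, C, D, fun F Q hF hQ => ⟨fun f hf hfQ => ?_, fun hI hU => ?_⟩⟩
  · by_cases hfr : ∃ᶠ z in codiscrete ℂ, ∀ p, ¬ H60W.GmV F Q B (f z) p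
    · exact Or.inl (h F Q hF hQ f hf hfQ hfr)
    · right
      rw [not_frequently] at hfr
      refine hfr.mono fun z hz => ?_
      push Not at hz
      obtain ⟨p, hp⟩ := hz
      exact ⟨p, Gm.of hp, hp.2.2.2.2⟩
  · obtain ⟨A, m, hm, hAh, hA, hall⟩ := hD F Q hF hQ hI (not_ruled hF hQ hI hU)
    refine ⟨A, m, hm, hAh, hA, fun f hf hfQ hfA => h F Q hF hQ f hf hfQ ?_⟩
    have hfd : ∀ j, Differentiable ℂ fun z => f z j := fun j => differentiable_pi.1 hf.hol j
    have h1 : ∀ᶠ z in codiscrete ℂ, eval (f z) A ≠ 0 :=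
      N131.SR.diff_ne (N131.SR.form_diff hfd A) hfA
    exact (h1.mono fun z hz p hp => hz (hall _ p hp)).frequently

end Pool.Agent.Results.MP_c69980_ag.BoundedDegreeFamilies
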