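import Mathlib
import Pool.Agent.H60W.TwR
import Pool.Agent.H60W.Lim
import Pool.Agent.H60S.Pol
import Pool.Agent.H60S.Rat

/-!
# Iterated linear differential equations over given functions, for all varieties of bounded degree

Let `a_1, ..., a_m` be arbitrary meromorphic functions in the plane. We consider entire curves which
are given by iterated linear differential equations over these functions and over rational functions
`b_1, ..., b_m'` of degree at most `δ`, with the complexity `(s, r, e)`: there are vectors
`y_1, ..., y_s` of length `r` of meromorphic functions such that `y_l' = M_l y_l`, where the entries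
of `M_l` are polynomials of degree at most `e` with complex coefficients in the `a_i`, `b_i` and in
the entries of `y_1, ..., y_{l-1}`, and the coordinates of the curve are such polynomials in the
`a_i`, `b_i` and in the entries of `y_1, ..., y_s`. For instance all integrals, exponentials and
solutions of linear differential equations with coefficients `a_i`, of integrals and exponentials of
these, and so on.

Let `N`, `d_1, ..., d_k`, `q` and `m`, `m'`, `δ`, `(s, r, e)` be given. There are numbers `C` and `D` with the
following property. Let `U` be the complement of the hypersurface `Q = 0` of degree `q` in the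
projective variety with equations `F_1 = ... = F_k = 0` of the degrees `d_1, ..., d_k`. If `U` is of
log-general type, or only not covered by curves with the source `G_m`, then there is a form `A` of
degree at most `D` which does not vanish on `U` such that all nonconstant entire curves `f` in `U`
of this kind, not contained in `A = 0`, satisfy

`T_f(r) + log r ≤ C (T(r, a_1) + ... + T(r, a_m))`

outside a set of radii of finite measure. So an entire curve in `U` outside `A = 0` cannot be given
by linear differential equations over functions which grow more slowly, with a factor which is the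
same for all `U`. For `m = 0` there are no such curves: all entire curves in `U` given by iterated
linear differential equations of complexity `(s, r, e)` over `m'` rational functions of degree at
most `δ` are contained in a proper closed subset, and the degree of this subset is bounded by a
number `D` which is the same for all `U`.

For arbitrary `U` there are `B` and `C` such that the inequality holds with the constant `C`, and
`m > 0`, or through all points of the curve, outside a discrete closed set of parameters, pass
curves with the source `G_m` in `U` of degree at most `B`.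

Proof. If this fails for all `B` and `C` there is a sequence of counterexamples. The functions `a_i`
of the sequence are small compared with the curves. In the ultraproduct one gets a point of
the limit variety over an iterated Picard-Vessiot extension of the field of the small sequences, and
the point is not algebraic over this field. This gives a curve with the source `G_m` through a
generic point of the closure of the limit of the entire curves, and, by the theorem of Chevalley,
curves of bounded degree through all points of a nonempty open set; these descend to the members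
of the sequence. Curves of logarithmic growth are rational, this removes the term `log r`.
-/

set_option autoImplicit false

namespace Pool.Agent.Results.MP_c69980_ag.IteratedEquationsUniform

open MvPolynomial MeasureTheory Filter
open Pool.Agent.H60W (Tower Reg IsRat)
open ValueDistribution (characteristic)

/-- The characteristic function of the curve with the homogeneous coordinates `g`, up to a constant:
the mean of the logarithm of the maximum norm over the circle of the radius `r`. -/
noncomputable def T {N : ℕ} (g : ℂ → Fin N → ℂ) (r : ℝ) : ℝ :=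
  Real.circleAverage (fun z => Real.log ‖g z‖) 0 r

/-- `S r ≤ X r` for all `r ≥ 1` outside a set of finite measure. -/
def Outside (S X : ℝ → ℝ) : Prop :=
  ∃ E : Set ℝ, volume E < ⊤ ∧ ∀ r, 1 ≤ r → r ∉ E → S r ≤ X r

/-- `f` is a nonconstant entire curve in the projective algebraic set `F = 0`. -/
structure CurveIn {N s : ℕ} (F : Fin s → MvPolynomial (Fin N) ℂ) (f : ℂ → Fin N → ℂ) : Prop where
  hol : Differentiable ℂ f
  ne : ∀ z, f z ≠ 0
  on : ∀ i z, eval (f z) (F i) = 0
  nonconst : ¬ ∀ z, ∃ c : ℂ, f z = c • f 0

variable {N k : ℕ}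

/-- The form `A` does not vanish identically along `f`. -/
def Off (A : MvPolynomial (Fin (N + 1)) ℂ) (f : ℂ → Fin (N + 1) → ℂ) : Prop :=
  ∃ z, eval (f z) A ≠ 0

/-- The polynomials `p` of degree at most `B` give a nonconstant morphism from the multiplicative
group to the complement of `Q = 0` in `F = 0`. -/
structure Gm (F : Fin k → MvPolynomial (Fin (N + 1)) ℂ) (Q : MvPolynomial (Fin (N + 1)) ℂ) (B : ℕ)
    (p : Fin (N + 1) → Polynomial ℂ) : Prop where
  deg : ∀ j, (p j).natDegree ≤ B
  on : ∀ i t, eval (fun j => (p j).eval t) (F i) = 0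
  off : ∀ t, t ≠ 0 → eval (fun j => (p j).eval t) Q ≠ 0
  nonconst : ∃ s t j k, (p j).eval s * (p k).eval t ≠ (p k).eval s * (p j).eval t

/-- The ideal of the polynomials which vanish on `F = 0`. -/
def ideal (F : Fin k → MvPolynomial (Fin (N + 1)) ℂ) : Ideal (MvPolynomial (Fin (N + 1)) ℂ) where
  carrier := {G | ∀ v, (∀ i, eval v (F i) = 0) → eval v G = 0}
  zero_mem' := fun v _ => map_zero _
  add_mem' := fun {a b} ha hb v hv => by rw [map_add, ha v hv, hb v hv, add_zero]
  smul_mem' := fun c x hx v hv => by rw [smul_eq_mul, map_mul, hx v hv, mul_zero]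

/-- The complement `U` of `Q = 0` in `F = 0` is of log-general type; `K` is the function field and `y`
the generic point of `U`, and the places `OffQ Q q y` are those without centre on `U`. -/
def LogGeneral (F : Fin k → MvPolynomial (Fin (N + 1)) ℂ) (Q : MvPolynomial (Fin (N + 1)) ℂ)
    (q : ℕ) : Prop :=
  ∃ (K : Type) (_ : Field K) (_ : Algebra ℂ K) (w : ℕ) (y : Fin (N + 1) → K),
    TH143.GT.FunField (ideal F) Q K w y ∧ W602.GT.LogGeneralType ℂ K w (W603.GR.OffQ Q q y)

/-- For each `n` the nonconstant morphisms of degree at most `n` from the multiplicative group to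
the complement of `Q = 0` in `F = 0` have images in a proper closed subset. -/
def Thin (F : Fin k → MvPolynomial (Fin (N + 1)) ℂ) (Q : MvPolynomial (Fin (N + 1)) ℂ) : Prop :=
  ∀ n, ∃ G : MvPolynomial (Fin (N + 1)) ℂ, (∃ m, G.IsHomogeneous m) ∧ G ∉ ideal F ∧
    ∀ p, Gm F Q n p → ∀ t, eval (fun j => (p j).eval t) G = 0

/-- polynomials without zeros in the punctured plane -/
theorem mono {R : Polynomial ℂ} (h : ∀ t, t ≠ 0 → R.eval t ≠ 0) :
    ∃ (c : ℂ) (k : ℕ), c ≠ 0 ∧ R = Polynomial.C c * Polynomial.X ^ k := by
  have hR : R ≠ 0 := by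
    rintro rfl
    exact h 1 one_ne_zero Polynomial.eval_zero
  obtain ⟨S, hS, hnd⟩ := Polynomial.exists_eq_pow_rootMultiplicity_mul_and_not_dvd R hR 0
  rw [Polynomial.C_0, sub_zero] at hS hnd
  have h0 : ∀ t, S.eval t ≠ 0 := by
    intro t ht
    by_cases h1 : t = 0
    · apply hnd
      rw [h1] at ht
      rw [Polynomial.X_dvd_iff, Polynomial.coeff_zero_eq_eval_zero]
      exact ht
    · apply h t h1
      rw [hS, Polynomial.eval_mul, ht, mul_zero]
  have h2 : S.degree ≤ 0 := by
    by_contra hcon
    obtain ⟨z, hz⟩ := IsAlgClosed.exists_root S (fun h => hcon h.le)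
    exact h0 z hz
  refine ⟨S.coeff 0, R.rootMultiplicity 0, fun h3 => ?_, ?_⟩
  · apply h0 0
    rw [← Polynomial.coeff_zero_eq_eval_zero, h3]
  · rw [← Polynomial.eq_C_of_degree_le_zero h2, mul_comm]
    exact hS

theorem Gm.of {F : Fin k → MvPolynomial (Fin (N + 1)) ℂ} {Q : MvPolynomial (Fin (N + 1)) ℂ}
    {B : ℕ} {v : Fin (N + 1) → ℂ} {p : Fin (N + 1) → Polynomial ℂ} (h : H60W.GmV F Q B v p) :
    Gm F Q B p := by
  refine ⟨h.1, fun i t => ?_, fun t ht => ?_, V1153.UG.nc_of_wr h.2.2.2.1⟩
  · rw [← V1153.UG.eval_aeval, h.2.1 i, Polynomial.eval_zero]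
  · obtain ⟨c, k, hc, hk⟩ := h.2.2.1
    rw [← V1153.UG.eval_aeval, hk, Polynomial.eval_mul, Polynomial.eval_C, Polynomial.eval_pow,
      Polynomial.eval_X]
    exact mul_ne_zero hc (pow_ne_zero _ ht)

theorem ideal_eq (F : Fin k → MvPolynomial (Fin (N + 1)) ℂ) : ideal F = H60W.idl F := rfl

theorem not_ruled {F : Fin k → MvPolynomial (Fin (N + 1)) ℂ} {Q : MvPolynomial (Fin (N + 1)) ℂ}
    {d : Fin k → ℕ} (hF : ∀ i, (F i).IsHomogeneous (d i)) {q : ℕ} (hQ : Q.IsHomogeneous q)
    (hI : (ideal F).IsPrime) (h : LogGeneral F Q q ∨ Thin F Q) :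
    ¬ V1153.UG.GmRuled (H60W.idl F) Q := by
  rcases h with ⟨K, _, _, w, y, hy, hL⟩ | h
  · exact V1153.UG.not_ruled_of_lgt hQ hy hL
  · refine (V1153.UG.thin_iff (I := H60W.idl F) hI hQ).1 fun n => ?_
    obtain ⟨G, hGh, hG, hall⟩ := h n
    refine ⟨G, hGh, hG, fun p hp => hall p ⟨hp.deg, fun i t => ?_, fun t ht => ?_, hp.nc⟩⟩
    · rw [← V1153.UG.eval_aeval, hp.mem (F i) (fun v hv => hv i) ⟨_, hF i⟩, Polynomial.eval_zero]
    · obtain ⟨c, k, hc, hk⟩ := hp.off
      rw [← V1153.UG.eval_aeval, hk, Polynomial.eval_mul, Polynomial.eval_C, Polynomial.eval_pow,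
        Polynomial.eval_X]
      exact mul_ne_zero hc (pow_ne_zero _ ht)

/-- the dichotomy -/
theorem dichotomy (N k : ℕ) (d : Fin k → ℕ) (q m m' δ s r e : ℕ) : ∃ (B : ℕ) (C : ℝ),
    ∀ (F : Fin k → MvPolynomial (Fin (N + 1)) ℂ) (Q : MvPolynomial (Fin (N + 1)) ℂ),
      (∀ i, (F i).IsHomogeneous (d i)) → Q.IsHomogeneous q →
      ∀ (a : Fin m → ℂ → ℂ) (b : Fin m' → ℂ → ℂ) (y : Fin s → Fin r → ℂ → ℂ)
        (f : ℂ → Fin (N + 1) → ℂ), (∀ i, IsRat δ (b i)) → Tower e (Fin.append a b) y →
        CurveIn F f → (∀ z, eval (f z) Q ≠ 0) → Reg e (Fin.append a b) y Q q f →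
        (∃ᶠ z in codiscrete ℂ, ∀ p, ¬ H60W.GmV F Q B (f z) p) →
        0 < m ∧ Outside (fun ρ => T f ρ + Real.log ρ)
          fun ρ => C * ∑ i, characteristic (a i) ⊤ ρ := by
  obtain ⟨B, C, hC, h⟩ := H60W.tower_dich_rat (Pool.Agent.H60S.t_RAT Pool.Agent.H60S.t_POL)
    N k d q m m' δ s r e
  refine ⟨B, C, fun F Q hF hQ a b y f hb ht hf hfQ hreg hfr => ?_⟩
  have hfd : ∀ j, Differentiable ℂ fun z => f z j := fun j => differentiable_pi.1 hf.hol j
  have hf0 : ∀ z, ∃ j, f z j ≠ 0 := by
    intro z
    by_contra hcon
    push Not at hcon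
    exact hf.ne z (funext hcon)
  have hnc : ∃ s t j k, f s j * f t k ≠ f s k * f t j := by
    by_contra hcon
    apply hf.nonconst
    intro z
    apply Pool.Agent.V1153.GH.prop_of hf.ne
    rintro ⟨s, t, j, k, hne⟩
    exact hcon ⟨s, t, j, k, hne⟩
  obtain ⟨hm, E, hE, hbd⟩ := h F Q hF hQ (fun j z => f z j) hfd hf0 hf.on hfQ hnc a b y hb ht
    hreg hfr
  exact ⟨hm, E, hE, hbd⟩

/-- **Iterated linear differential equations over given functions, for all varieties of bounded
degree.** Let `N`, the degrees `d i` and `q`, and `m`, `m'`, `δ`, `(s, r, e)` be given. There are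
`B`, `C`, `D` such that for all forms `F i` of degree `d i` and `Q` of degree `q` in `N + 1`
variables, with `U` the complement of `Q = 0` in `F = 0`:

(1) let `f` be a nonconstant entire curve in `U` given by iterated linear differential equations of
complexity `(s, r, e)` over `m` meromorphic functions `a_1, ..., a_m` and `m'` rational functions
`b_1, ..., b_m'` of degree at most `δ`; then `m > 0` and
`T_f(ρ) + log ρ ≤ C (T(ρ, a_1) + ... + T(ρ, a_m))` outside a set of finite measure, or for all `z`
outside a discrete closed set there is a nonconstant morphism `p` of degree at most `B` from the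
multiplicative group to `U` with `p(1) = f(z)`;

(2) if `F = 0` is irreducible and `U` is of log-general type, or only not covered by the morphisms
of bounded degree from the multiplicative group, then there is a form `A` of degree at most `D`
which does not vanish on `F = 0` such that the first alternative in (1) holds for all these entire
curves `f` which are not contained in `A = 0`; for `m = 0` they are all contained in `A = 0`. -/
theorem result (N k : ℕ) (d : Fin k → ℕ) (q m m' δ s r e : ℕ) : ∃ (B : ℕ) (C : ℝ) (D : ℕ),
    ∀ (F : Fin k → MvPolynomial (Fin (N + 1)) ℂ) (Q : MvPolynomial (Fin (N + 1)) ℂ),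
      (∀ i, (F i).IsHomogeneous (d i)) → Q.IsHomogeneous q →
      (∀ (a : Fin m → ℂ → ℂ) (b : Fin m' → ℂ → ℂ) (y : Fin s → Fin r → ℂ → ℂ)
        (f : ℂ → Fin (N + 1) → ℂ), (∀ i, IsRat δ (b i)) → Tower e (Fin.append a b) y →
        CurveIn F f → (∀ z, eval (f z) Q ≠ 0) → Reg e (Fin.append a b) y Q q f →
        (0 < m ∧ Outside (fun ρ => T f ρ + Real.log ρ)
          fun ρ => C * ∑ i, characteristic (a i) ⊤ ρ) ∨
        ∀ᶠ z in codiscrete ℂ, ∃ p, Gm F Q B p ∧ ∀ j, (p j).eval 1 = f z j) ∧
      ((ideal F).IsPrime → LogGeneral F Q q ∨ Thin F Q →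
        ∃ (A : MvPolynomial (Fin (N + 1)) ℂ) (t : ℕ), t ≤ D ∧ A.IsHomogeneous t ∧ A ∉ ideal F ∧
          ∀ (a : Fin m → ℂ → ℂ) (b : Fin m' → ℂ → ℂ) (y : Fin s → Fin r → ℂ → ℂ)
            (f : ℂ → Fin (N + 1) → ℂ), (∀ i, IsRat δ (b i)) → Tower e (Fin.append a b) y →
            CurveIn F f → (∀ z, eval (f z) Q ≠ 0) → Reg e (Fin.append a b) y Q q f → Off A f →
            0 < m ∧ Outside (fun ρ => T f ρ + Real.log ρ)
              fun ρ => C * ∑ i, characteristic (a i) ⊤ ρ) := by
  obtain ⟨B, C, h⟩ := dichotomy N k d q m m' δ s r e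
  obtain ⟨D, hD⟩ := H60W.thin_unif N k d q B
  refine ⟨B, C, D, fun F Q hF hQ => ⟨fun a b y f hb ht hf hfQ hreg => ?_, fun hI hU => ?_⟩⟩
  · by_cases hfr : ∃ᶠ z in codiscrete ℂ, ∀ p, ¬ H60W.GmV F Q B (f z) p
    · exact Or.inl (h F Q hF hQ a b y f hb ht hf hfQ hreg hfr)
    · right
      rw [not_frequently] at hfr
      refine hfr.mono fun z hz => ?_
      push Not at hz
      obtain ⟨p, hp⟩ := hz
      exact ⟨p, Gm.of hp, hp.2.2.2.2⟩
  · obtain ⟨A, t, hm, hAh, hA, hall⟩ := hD F Q hF hQ hI (not_ruled hF hQ hI hU)
    refine ⟨A, t, hm, hAh, hA, fun a b y f hb ht hf hfQ hreg hfA =>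
      h F Q hF hQ a b y f hb ht hf hfQ hreg ?_⟩
    have hfd : ∀ j, Differentiable ℂ fun z => f z j := fun j => differentiable_pi.1 hf.hol j
    have h1 : ∀ᶠ z in codiscrete ℂ, eval (f z) A ≠ 0 :=
      N131.SR.diff_ne (N131.SR.form_diff hfd A) hfA
    exact (h1.mono fun z hz p hp => hz (hall _ p hp)).frequently

end Pool.Agent.Results.MP_c69980_ag.IteratedEquationsUniform
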