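import Mathlib
import Pool.Agent.H60W.Sec
import Pool.Agent.Results.MP_c69980_ag.BoundedDegreeFamilies
import Pool.Agent.Results.MP_c69980_ag.IteratedEquationsUniform

/-!
# Entire curves in complements and sections by general hypersurfaces

Let `V` be a projective variety of dimension at most `m` in the projective space of dimension `N`, and
let `d_1, ..., d_q` be degrees and `Z` a set of indices with `2 m + 1 ≤ ∑ d_i + #Z`. For forms
`F_1, ..., F_q` of these degrees let `U` be the set of the points of `V` with `F_i = 0` for `i ∈ Z`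
and `F_i ≠ 0` for `i ∉ Z`. For instance complements of general hypersurfaces of degree at least
`2 m + 1` in the projective space of dimension `m`, complements of several general hypersurfaces whose
degrees have the sum at least `2 m + 1`, in all projective varieties of dimension `m`, and general
complete intersections of large degree.

For general `F` there is no exceptional set: there are a number `C` and a nonzero polynomial `Φ` in
the coefficients of `F_1, ..., F_q`, such that for `Φ(F) ≠ 0` all nonconstant entire curves `f` in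
`V` with `F_i(f) = 0` for `i ∈ Z` which are contained in none of the hypersurfaces `F_i = 0`, `i ∉ Z`,
satisfy

`T_f(r) ≤ C (N₁(W, r) + N₁(Q(f), r))`,   `Q = ∏ F_i`, `i ∉ Z`,

outside a set of radii of finite measure, where `W` is the Wronskian of a basis of the span of the
coordinates of `f`, and the variants for the Wronskians of other representations. All entire curves
in `U` given by iterated linear differential equations over meromorphic functions
`a_1, ..., a_m₁` and rational functions of bounded degree satisfy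

`T_f(r) + log r ≤ C (T(r, a_1) + ... + T(r, a_m₁))`;

there are no such curves for `m₁ = 0`.

Proof. By the dichotomy for all quasi-projective varieties of bounded degree it is enough that for
general `F` there are no nonconstant morphisms of degree at most `B` from the multiplicative group to
`U`. Otherwise there is a sequence of `F` with such morphisms which is not contained in any finite
union of the zero sets of the polynomials of a countable sequence; the ultraproduct gives such a
morphism for a generic point of the space of the coefficients, which is impossible.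
-/

set_option autoImplicit false

namespace Pool.Agent.Results.MP_c69980_ag.GeneralComplements

open MvPolynomial MeasureTheory Filter
open Pool.Agent.N634.SH (Ix form form_hom)
open Pool.Agent.H60W (Tower Reg IsRat)
open BoundedDegreeFamilies (Outside T Off Bounds)
open ValueDistribution (characteristic)

variable {N q κ : ℕ} {d : Fin q → ℕ}

/-- `f` is a nonconstant entire curve in `V = {G = 0}`, contained in `F_i = 0` for `i ∈ Z`; the forms
`F_i` of the degrees `d i` are given by the vector `c` of all their coefficients, `F_i = form c i`. -/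
structure Curve (G : Fin κ → MvPolynomial (Fin (N + 1)) ℂ) (Z : Finset (Fin q)) (c : Ix N d → ℂ)
    (f : ℂ → Fin (N + 1) → ℂ) : Prop where
  hol : Differentiable ℂ f
  ne : ∀ z, f z ≠ 0
  on : ∀ k z, eval (f z) (G k) = 0
  sec : ∀ i ∈ Z, ∀ z, eval (f z) (form c i) = 0
  nonconst : ¬ ∀ z, ∃ c : ℂ, f z = c • f 0

/-- the product of the forms `F_i`, `i ∉ Z` -/
noncomputable def bd (Z : Finset (Fin q)) (c : Ix N d → ℂ) : MvPolynomial (Fin (N + 1)) ℂ :=
  ∏ i ∈ Finset.univ \ Z, form c i

theorem sys_hom {G : Fin κ → MvPolynomial (Fin (N + 1)) ℂ} {eG : Fin κ → ℕ}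
    (hG : ∀ k, (G k).IsHomogeneous (eG k)) (Z : Finset (Fin q)) (c : Ix N d → ℂ) (i : Fin (κ + q)) :
    (H60W.sys (d := d) G Z (form c) i).IsHomogeneous (Fin.append eG d i) := by
  classical
  unfold H60W.sys
  refine Fin.addCases (fun i => ?_) (fun i => ?_) i
  · rw [Fin.append_left, Fin.append_left]
    exact hG i
  · rw [Fin.append_right, Fin.append_right]
    split_ifs
    · exact form_hom c i
    · exact isHomogeneous_zero _ _ _

theorem sys_on {G : Fin κ → MvPolynomial (Fin (N + 1)) ℂ} {Z : Finset (Fin q)} {c : Ix N d → ℂ}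
    {f : ℂ → Fin (N + 1) → ℂ} (h : Curve G Z c f) (i : Fin (κ + q)) (z : ℂ) :
    eval (f z) (H60W.sys (d := d) G Z (form c) i) = 0 := by
  classical
  unfold H60W.sys
  refine Fin.addCases (fun i => ?_) (fun i => ?_) i
  · rw [Fin.append_left]
    exact h.on i z
  · rw [Fin.append_right]
    split_ifs with h1
    · exact h.sec i h1 z
    · exact map_zero _

theorem bd_hom (Z : Finset (Fin q)) (c : Ix N d → ℂ) :
    (bd Z c).IsHomogeneous (∑ i ∈ Finset.univ \ Z, d i) :=
  IsHomogeneous.prod _ _ _ fun i _ => form_hom c i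

theorem N₁_nonneg (h : ℂ → ℂ) {r : ℝ} (hr : 1 ≤ r) : 0 ≤ BoundedDegreeFamilies.N₁ h r := by
  unfold BoundedDegreeFamilies.N₁
  refine finsum_nonneg fun z => finsum_nonneg fun hz => ?_
  have hz' : ‖z‖ ≤ r := hz.2
  split_ifs with h0
  · exact Real.log_nonneg hr
  · have h1 : 0 < ‖z‖ := norm_pos_iff.2 h0
    exact Real.log_nonneg (by rwa [le_div_iff₀ h1, one_mul])

theorem out_mono {S X : ℝ → ℝ} {C C' : ℝ} (hC : C ≤ C') (hX : ∀ r, 1 ≤ r → 0 ≤ X r)
    (h : Outside S fun r => C * X r) : Outside S fun r => C' * X r := by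
  obtain ⟨E, hE, hb⟩ := h
  exact ⟨E, hE, fun r hr hrE => (hb r hr hrE).trans (mul_le_mul_of_nonneg_right hC (hX r hr))⟩

/-- **Complements and sections by general hypersurfaces.** Let `V = {G = 0}` be a closed projective
set whose homogeneous coordinate ring has transcendence degree at most `m + 1` (so `dim V ≤ m`), let
`d i` be degrees and `Z` a set of indices with `2 m + 1 ≤ ∑ d i + #Z`. There are a nonzero polynomial
`Φ` in the coefficients `c` of the forms `F_i` of degree `d i` and a number `C` such that for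
`Φ(c) ≠ 0` all nonconstant entire curves `f` in `V` with `F_i(f) = 0` for `i ∈ Z` satisfy:

(1) if `f` is not contained in `F_i = 0` for any `i ∉ Z`, the inequalities `Bounds` hold with
`Q = ∏ F_i` (`i ∉ Z`) and the constant `C`:
`T_f(r) ≤ C (N₁(W, r) + N₁(Q(f), r))` outside a set of finite measure, with the Wronskian `W` of a
basis of the span of the coordinates of `f`, and
`T_f(r) ≤ C (N₁(W, r) + N₁(Q(f), r) + log⁺ T_H(r))` if `f = P(H)`, where `H_0, ..., H_M` are entire
functions with Wronskian `W` and the `P_j` are forms of degree `e`;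

(2) if `F_i(f)` has no zeros for `i ∉ Z` and `f` is given by iterated linear differential equations of
complexity `(s, r, e')` over meromorphic functions `a_1, ..., a_m₁` and rational functions
`b_1, ..., b_m₂` of degree at most `δ`, then `m₁ > 0` and
`T_f(ρ) + log ρ ≤ C (T(ρ, a_1) + ... + T(ρ, a_m₁))` outside a set of finite measure. -/
theorem result (N κ m q : ℕ) (G : Fin κ → MvPolynomial (Fin (N + 1)) ℂ)
    (hG : ∀ k, ∃ e, (G k).IsHomogeneous e)
    (hdim : Algebra.trdeg ℂ (MvPolynomial (Fin (N + 1)) ℂ ⧸ Ideal.span (Set.range G)) ≤ m + 1)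
    (d : Fin q → ℕ) (Z : Finset (Fin q)) (hZ : 2 * m + 1 ≤ ∑ i, d i + Z.card)
    (M e m₁ m₂ δ s r e' : ℕ) :
    ∃ (Φ : MvPolynomial (Ix N d) ℂ) (C : ℝ), Φ ≠ 0 ∧ ∀ c : Ix N d → ℂ, eval c Φ ≠ 0 →
      ∀ f : ℂ → Fin (N + 1) → ℂ, Curve G Z c f →
        ((∀ i, i ∉ Z → Off (form c i) f) → Bounds M e (bd Z c) C f) ∧
        ∀ (a : Fin m₁ → ℂ → ℂ) (b : Fin m₂ → ℂ → ℂ) (y : Fin s → Fin r → ℂ → ℂ),
          (∀ i, IsRat δ (b i)) → Tower e' (Fin.append a b) y →
          (∀ i, i ∉ Z → ∀ z, eval (f z) (form c i) ≠ 0) →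
          Reg e' (Fin.append a b) y (bd Z c) (∑ i ∈ Finset.univ \ Z, d i) f →
          0 < m₁ ∧ Outside (fun ρ => T f ρ + Real.log ρ)
            fun ρ => C * ∑ i, characteristic (a i) ⊤ ρ := by
  classical
  choose eG hG' using hG
  obtain ⟨B₁, C₁, h1⟩ := BoundedDegreeFamilies.dichotomy N (κ + q) (Fin.append eG d)
    (∑ i ∈ Finset.univ \ Z, d i) M e
  obtain ⟨B₂, C₂, h2⟩ := IteratedEquationsUniform.dichotomy N (κ + q) (Fin.append eG d)
    (∑ i ∈ Finset.univ \ Z, d i) m₁ m₂ δ s r e'
  obtain ⟨Φ₁, hΦ₁, hg1⟩ := H60W.gen_bdd G (fun k => ⟨_, hG' k⟩) hdim d Z hZ B₁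
  obtain ⟨Φ₂, hΦ₂, hg2⟩ := H60W.gen_bdd G (fun k => ⟨_, hG' k⟩) hdim d Z hZ B₂
  refine ⟨Φ₁ * Φ₂, max C₁ C₂, mul_ne_zero hΦ₁ hΦ₂, fun c hc f hf => ?_⟩
  rw [map_mul] at hc
  have hc1 : eval c Φ₁ ≠ 0 := left_ne_zero_of_mul hc
  have hc2 : eval c Φ₂ ≠ 0 := right_ne_zero_of_mul hc
  have hfd : ∀ j, Differentiable ℂ fun z => f z j := fun j => differentiable_pi.1 hf.hol j
  refine ⟨fun hoff => ?_, fun a b y hb ht hnz hreg => ?_⟩
  · have hQ : Off (bd Z c) f := by
      have h3 : ∀ᶠ z in codiscrete ℂ, ∀ i ∈ (Finset.univ \ Z : Finset (Fin q)),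
          eval (f z) (form c i) ≠ 0 := by
        rw [eventually_all_finset]
        intro i hi
        have hi' : i ∉ Z := (Finset.mem_sdiff.1 hi).2
        exact N131.SR.diff_ne (N131.SR.form_diff hfd (form c i)) (hoff i hi')
      obtain ⟨z, hz⟩ := h3.exists
      refine ⟨z, ?_⟩
      unfold bd
      rw [map_prod]
      exact Finset.prod_ne_zero_iff.2 hz
    have hB : Bounds M e (bd Z c) C₁ f := h1 (H60W.sys (d := d) G Z (form c)) (bd Z c)
      (sys_hom hG' Z c) (bd_hom Z c) f ⟨hf.hol, hf.ne, sys_on hf, hf.nonconst⟩ hQ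
      (Eventually.frequently (Eventually.of_forall fun z p => hg1 c hc1 (f z) p))
    refine ⟨fun k g hg => out_mono (le_max_left _ _) (fun r hr => ?_) (hB.1 k g hg),
      fun P H hP k g hg => out_mono (le_max_left _ _) (fun r hr => ?_) (hB.2 P H hP k g hg)⟩
    · exact add_nonneg (N₁_nonneg _ hr) (N₁_nonneg _ hr)
    · exact add_nonneg (add_nonneg (N₁_nonneg _ hr) (N₁_nonneg _ hr)) Real.posLog_nonneg
  · have hQ : ∀ z, eval (f z) (bd Z c) ≠ 0 := by
      intro z
      unfold bd
      rw [map_prod]
      exact Finset.prod_ne_zero_iff.2 fun i hi => hnz i (Finset.mem_sdiff.1 hi).2 z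
    obtain ⟨hm, hO⟩ := h2 (H60W.sys (d := d) G Z (form c)) (bd Z c) (sys_hom hG' Z c) (bd_hom Z c)
      a b y f hb ht ⟨hf.hol, hf.ne, sys_on hf, hf.nonconst⟩ hQ hreg
      (Eventually.frequently (Eventually.of_forall fun z p => hg2 c hc2 (f z) p))
    refine ⟨hm, out_mono (le_max_right _ _) (fun ρ hρ => ?_) hO⟩
    refine Finset.sum_nonneg fun i _ => ?_
    unfold characteristic
    exact add_nonneg (ValueDistribution.proximity_nonneg ρ) (ValueDistribution.logCounting_nonneg hρ)

end Pool.Agent.Results.MP_c69980_ag.GeneralComplements
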