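import Mathlib
import Pool.Agent.Results.MP_c69980_ag.BoundedDegreeFamilies
import Pool.Agent.H60W.Plc

/-!
# The degree of rational curves is bounded by the number of flexes and of boundary points

Let `N`, `d_1, ..., d_s`, `q` be given. There are numbers `C` and `D` with the following property. Let
`U` be the complement of the hypersurface `Q = 0` of degree `q` in the projective variety `X` with the
equations `F_1 = ... = F_s = 0` of the degrees `d_1, ..., d_s`. If `U` is of log-general type, or only
not covered by curves with the source `G_m`, then there is a form `A` of degree at most `D` which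
does not vanish on `U` such that all nonconstant morphisms `p` of the affine line to `X`, given by
polynomials without common zeros, whose image is contained neither in `A = 0` nor in `Q = 0`,
satisfy

`deg p ≤ C (number of flexes of p + number of points z with Q(p(z)) = 0)`;

flexes are the zeros of the Wronskian of a basis of the linear span of the coordinates of `p`, and
all points are counted without multiplicity. More generally, if the coordinates of `p` are forms of
degree `e` in polynomials `G_0, ..., G_M`, one can replace the flexes of `p` by those of `G`; here `C`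
and `D` depend also on `M` and `e`. For instance, if `p` has coordinates which are linear combinations
of `M + 1` powers of `z`, then `0` is the only flex and `deg p ≤ C (1 + number of points z with
Q(p(z)) = 0)`.

So for curves `S` in the affine line the morphisms from `S` to `U` with a given number of flexes
which are not contained in `A = 0` are of bounded degree, where the bound depends only on this
number and on the number of points of the complement of `S`, and not on `S` and `U`.

The theorem is deduced from the uniform inequality for entire curves (`BoundedDegreeFamilies`), where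
the term `log r` has been removed.
-/

set_option autoImplicit false

namespace Pool.Agent.Results.MP_c69980_ag.RationalCurvesFlexes

open MvPolynomial MeasureTheory Filter
open Pool.Agent.Results.MP_c69980_ag.BoundedDegreeFamilies (T N₁ W Basis CurveIn Image Bounds Gm
  ideal LogGeneral Thin Off)

/-- The Wronskian of polynomials. -/
noncomputable def Wronskian {k : ℕ} (g : Fin k → Polynomial ℂ) : Polynomial ℂ :=
  Matrix.det (Matrix.of fun i j : Fin k => Polynomial.derivative^[(i : ℕ)] (g j))

/-- The number of the zeros of a polynomial, without multiplicity. -/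
noncomputable def zeros (P : Polynomial ℂ) : ℕ := P.roots.toFinset.card

variable {N s M : ℕ}

/-- The map from the affine line to the projective space with the coordinates `P_j(G)`. -/
noncomputable def image (P : Fin (N + 1) → MvPolynomial (Fin (M + 1)) ℂ)
    (G : Fin (M + 1) → Polynomial ℂ) (j : Fin (N + 1)) : Polynomial ℂ := aeval G (P j)

/-- The coordinates `P_j(G)`, where the `P_j` are forms of degree `e > 0` and the `G_k` polynomials,
have no common zeros and define a nonconstant map from the affine line to the projective algebraic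
set `F = 0` which is not contained in `Q = 0`; the `g_i` are a basis of the span of the `G_k`. -/
structure RatCurve (F : Fin s → MvPolynomial (Fin (N + 1)) ℂ) (Q : MvPolynomial (Fin (N + 1)) ℂ)
    (e : ℕ) (P : Fin (N + 1) → MvPolynomial (Fin (M + 1)) ℂ) (G : Fin (M + 1) → Polynomial ℂ)
    {k : ℕ} (g : Fin k → Polynomial ℂ) : Prop where
  pos : 0 < e
  hom : ∀ j, (P j).IsHomogeneous e
  ne : ∀ z, ∃ j, (image P G j).eval z ≠ 0
  on : ∀ i, aeval (image P G) (F i) = 0
  off : aeval (image P G) Q ≠ 0
  nonconst : ∃ j, 0 < (image P G j).natDegree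
  ind : LinearIndependent ℂ g
  span : Submodule.span ℂ (Set.range g) = Submodule.span ℂ (Set.range G)

theorem N₁_nonneg (h : ℂ → ℂ) {r : ℝ} (hr : 1 ≤ r) : 0 ≤ N₁ h r := by
  unfold N₁
  refine finsum_nonneg fun z => finsum_nonneg fun hz => ?_
  split_ifs with h0
  · exact Real.log_nonneg hr
  · apply Real.log_nonneg
    rw [one_le_div (norm_pos_iff.2 h0)]
    exact hz.2

theorem N₁_upper {h : ℂ → ℂ} (Z : Finset ℂ) (hZ : ∀ z, h z = 0 → z ∈ Z) :
    ∃ c : ℝ, ∀ r, 1 ≤ r → N₁ h r ≤ Z.card * Real.log r + c := by
  classical
  refine ⟨∑ z ∈ Z, |Real.log ‖z‖|, fun r hr => ?_⟩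
  have hl := Real.log_nonneg hr
  have hfin : {z : ℂ | h z = 0 ∧ ‖z‖ ≤ r}.Finite :=
    Z.finite_toSet.subset fun z hz => Finset.mem_coe.2 (hZ z hz.1)
  unfold N₁
  rw [finsum_mem_eq_finite_toFinset_sum _ hfin]
  have h1 : ∀ z ∈ hfin.toFinset, (if z = 0 then Real.log r else Real.log (r / ‖z‖)) ≤
      Real.log r + |Real.log ‖z‖| := by
    intro z hz
    split_ifs with h0
    · linarith [abs_nonneg (Real.log ‖z‖)]
    · rw [Real.log_div (by linarith) (norm_ne_zero_iff.2 h0)]
      linarith [neg_abs_le (Real.log ‖z‖)]
  refine (Finset.sum_le_sum h1).trans ?_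
  have h2 : hfin.toFinset ⊆ Z := fun z hz => hZ z (by
    rw [Set.Finite.mem_toFinset] at hz
    exact hz.1)
  refine (Finset.sum_le_sum_of_subset_of_nonneg h2 fun z _ _ => by positivity).trans ?_
  rw [Finset.sum_add_distrib, Finset.sum_const, nsmul_eq_mul]

theorem iter_deriv (i : ℕ) (p : Polynomial ℂ) :
    iteratedDeriv i (fun z => p.eval z) = fun z => (Polynomial.derivative^[i] p).eval z := by
  induction i with
  | zero => simp
  | succ i ih =>
    rw [iteratedDeriv_succ, ih]
    funext z
    rw [Function.iterate_succ_apply']
    exact Polynomial.deriv _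

theorem W_eval {k : ℕ} (g : Fin k → Polynomial ℂ) (z : ℂ) :
    W (fun j z => (g j).eval z) z = (Wronskian g).eval z := by
  unfold W Wronskian
  rw [← Polynomial.coe_evalRingHom, RingHom.map_det]
  congr 1
  ext i j
  rw [RingHom.mapMatrix_apply, Matrix.map_apply, Matrix.of_apply, Matrix.of_apply, iter_deriv]
  rfl

/-- polynomials as functions -/
noncomputable def fn : Polynomial ℂ →ₗ[ℂ] (ℂ → ℂ) where
  toFun p := fun z => p.eval z
  map_add' p q := funext fun z => Polynomial.eval_add
  map_smul' c p := funext fun z => by
    rw [Polynomial.eval_smul]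
    rfl

theorem fn_ker : LinearMap.ker fn = ⊥ := by
  rw [LinearMap.ker_eq_bot]
  intro p q h
  exact Polynomial.funext fun z => congrFun h z

theorem eval_image (P : Fin (N + 1) → MvPolynomial (Fin (M + 1)) ℂ)
    (G : Fin (M + 1) → Polynomial ℂ) (j : Fin (N + 1)) (z : ℂ) :
    (image P G j).eval z = eval (fun k => (G k).eval z) (P j) := by
  unfold image
  rw [V1153.UG.eval_aeval]

theorem curveIn {F : Fin s → MvPolynomial (Fin (N + 1)) ℂ} {Q : MvPolynomial (Fin (N + 1)) ℂ}
    {e : ℕ} {P : Fin (N + 1) → MvPolynomial (Fin (M + 1)) ℂ} {G : Fin (M + 1) → Polynomial ℂ}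
    {k : ℕ} {g : Fin k → Polynomial ℂ} (h : RatCurve F Q e P G g) :
    CurveIn F fun z j => (image P G j).eval z := by
  refine ⟨differentiable_pi.2 fun j => (image P G j).differentiable, fun z h0 => ?_,
    fun i z => ?_, fun hc => ?_⟩
  · obtain ⟨j, hj⟩ := h.ne z
    exact hj (congrFun h0 j)
  · rw [← V1153.UG.eval_aeval, h.on i, Polynomial.eval_zero]
  · obtain ⟨j, hj⟩ := h.nonconst
    have hd : (image P G j).degree ≠ 0 := by
      intro h0
      have h1 : (image P G j).natDegree = 0 := Polynomial.natDegree_eq_of_degree_eq_some h0
      omega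
    obtain ⟨z0, hz0⟩ := IsAlgClosed.exists_root (image P G j) hd
    have hne : (image P G j).eval 0 ≠ 0 := by
      intro h0
      have h1 : image P G j = 0 := by
        apply Polynomial.funext
        intro z
        obtain ⟨c, hc1⟩ := hc z
        have h2 := congrFun hc1 j
        change (image P G j).eval z = c * (image P G j).eval 0 at h2
        rw [h2, h0, mul_zero, Polynomial.eval_zero]
      rw [h1, Polynomial.natDegree_zero] at hj
      exact absurd hj (lt_irrefl 0)
    obtain ⟨c, hc1⟩ := hc z0
    have h2 := congrFun hc1 j
    change (image P G j).eval z0 = c * (image P G j).eval 0 at h2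
    rw [show (image P G j).eval z0 = 0 from hz0] at h2
    have h3 : c = 0 := (mul_eq_zero.1 h2.symm).resolve_right hne
    obtain ⟨l, hl⟩ := h.ne z0
    apply hl
    have h4 := congrFun hc1 l
    change (image P G l).eval z0 = c * (image P G l).eval 0 at h4
    rw [h4, h3, zero_mul]

theorem off {P : Fin (N + 1) → MvPolynomial (Fin (M + 1)) ℂ} {G : Fin (M + 1) → Polynomial ℂ}
    {A : MvPolynomial (Fin (N + 1)) ℂ} (h : aeval (image P G) A ≠ 0) :
    Off A fun z j => (image P G j).eval z := by
  by_contra hno
  unfold Off at hno
  push Not at hno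
  apply h
  apply Polynomial.funext
  intro z
  rw [V1153.UG.eval_aeval, Polynomial.eval_zero]
  exact hno z

/-- the degree of a rational curve which satisfies the inequality -/
theorem deg_le {F : Fin s → MvPolynomial (Fin (N + 1)) ℂ} {Q : MvPolynomial (Fin (N + 1)) ℂ}
    {e : ℕ} {P : Fin (N + 1) → MvPolynomial (Fin (M + 1)) ℂ} {G : Fin (M + 1) → Polynomial ℂ}
    {k : ℕ} {g : Fin k → Polynomial ℂ} (h : RatCurve F Q e P G g) {C : ℝ}
    (hb : Bounds M e Q C fun z j => (image P G j).eval z) (j : Fin (N + 1)) :
    ((image P G j).natDegree : ℝ) ≤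
      |C| * (zeros (Wronskian g) + zeros (aeval (image P G) Q)) := by
  classical
  by_cases hj : image P G j = 0
  · rw [hj, Polynomial.natDegree_zero, Nat.cast_zero]
    positivity
  have hG0 : ∀ z, ∃ k, (G k).eval z ≠ 0 := by
    intro z
    by_contra hcon
    push Not at hcon
    obtain ⟨j, hj⟩ := h.ne z
    apply hj
    rw [eval_image]
    have h1 : (fun k => (G k).eval z) = fun k => (0 : ℂ) * (G k).eval z :=
      funext fun k => by rw [hcon k, mul_zero]
    rw [h1, Y377.IL.eval_scale (h.hom j), zero_pow h.pos.ne', zero_mul]
  obtain ⟨E, hE, hE2⟩ := hb.2 P (fun z k => (G k).eval z)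
    ⟨h.pos, differentiable_pi.2 fun k => (G k).differentiable, h.hom, fun z j => eval_image P G j z⟩
    k (fun i z => (g i).eval z) ⟨h.ind.map' fn fn_ker, by
      have h1 := congrArg (Submodule.map fn) h.span
      rw [Submodule.map_span, Submodule.map_span, ← Set.range_comp, ← Set.range_comp] at h1
      exact h1⟩
  have hW : Wronskian g ≠ 0 := by
    have hc : ∃ z, W (fun i z => (g i).eval z) z ≠ 0 := by
      let c : N131.SU.Crv M M k 1 := ⟨fun k z => (G k).eval z, fun j => X j,
        fun i z => (g i).eval z, ⟨fun k => (G k).differentiable, one_pos,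
        fun j => isHomogeneous_X _ _, fun z => by
          obtain ⟨j, hj⟩ := hG0 z
          refine ⟨j, ?_⟩
          change eval (fun k => (G k).eval z) (X j) ≠ 0
          rwa [eval_X], h.ind.map' fn fn_ker, by
            have h1 := congrArg (Submodule.map fn) h.span
            rw [Submodule.map_span, Submodule.map_span, ← Set.range_comp, ← Set.range_comp] at h1
            exact h1⟩⟩
      obtain ⟨a, b, ha, hb, hgd, hW⟩ := c.D.data
      exact hW
    obtain ⟨z, hz⟩ := hc
    intro h0
    apply hz
    rw [W_eval, h0, Polynomial.eval_zero]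
  obtain ⟨c1, h1⟩ := N₁_upper (h := W fun i z => (g i).eval z) (Wronskian g).roots.toFinset
    (fun z hz => by
      rw [Multiset.mem_toFinset, Polynomial.mem_roots hW, Polynomial.IsRoot.def, ← W_eval]
      exact hz)
  obtain ⟨c2, h2⟩ := N₁_upper (h := fun z => eval (fun j => (image P G j).eval z) Q)
    (aeval (image P G) Q).roots.toFinset (fun z hz => by
      rw [Multiset.mem_toFinset, Polynomial.mem_roots h.off, Polynomial.IsRoot.def,
        V1153.UG.eval_aeval]
      exact hz)
  obtain ⟨c3, R, hR, h3⟩ := H60W.Tf_lower (image P G) h.ne hj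
  obtain ⟨l, hl⟩ := hG0 0
  have hl0 : G l ≠ 0 := by
    rintro h0
    exact hl (by rw [h0, Polynomial.eval_zero])
  obtain ⟨c4, R', hR', h4⟩ := H60W.Tf_lower G hG0 hl0
  obtain ⟨K, c5, hK, h5⟩ := H60W.T_upper G hG0
  refine H60W.coef_le hE (n := ((image P G j).natDegree : ℝ))
    (A := c3 + |C| * (|c1| + |c2|)) (C := |C|) (K := K) (c := |c4| + |c5|) (R := max R R')
    (τ := T fun z k => (G k).eval z) hK (abs_nonneg _) (fun r hr hrR => ?_)
    fun r hr hrR hrE => ?_
  · have hl := Real.log_nonneg hr
    have h6 := h4 r ((le_max_right _ _).trans hrR)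
    have h7 := h5 r hr
    have h8 : 0 ≤ ((G l).natDegree : ℝ) * Real.log r := by positivity
    have h9 : 0 ≤ K * Real.log r := mul_nonneg hK hl
    rw [abs_le]
    constructor
    · have : -(K * Real.log r + (|c4| + |c5|)) ≤ (G l).natDegree * Real.log r - c4 := by
        linarith [le_abs_self c4, abs_nonneg c5]
      exact this.trans h6
    · have : K * Real.log r + c5 ≤ K * Real.log r + (|c4| + |c5|) := by
        linarith [le_abs_self c5, abs_nonneg c4]
      exact h7.trans this
  · have h6 := hE2 r hr hrE
    have h7 := h3 r ((le_max_left _ _).trans hrR)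
    have h8 := h1 r hr
    have h9 := h2 r hr
    have hp : 0 ≤ Real.posLog (T (fun z k => (G k).eval z) r) := Real.posLog_nonneg
    have h10 : T (fun z j => (image P G j).eval z) r ≤ |C| *
        (((Wronskian g).roots.toFinset.card * Real.log r + |c1|) +
          ((aeval (image P G) Q).roots.toFinset.card * Real.log r + |c2|) +
            Real.posLog (T (fun z k => (G k).eval z) r)) := by
      refine h6.trans ?_
      have h11 := N₁_nonneg (W fun i z => (g i).eval z) hr
      have h12 := N₁_nonneg (fun z => eval (fun j => (image P G j).eval z) Q) hr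
      refine (mul_le_mul_of_nonneg_right (le_abs_self C)
        (add_nonneg (add_nonneg h11 h12) hp)).trans ?_
      apply mul_le_mul_of_nonneg_left _ (abs_nonneg _)
      have := le_abs_self c1
      have := le_abs_self c2
      linarith
    have h13 : T (fun z j => (image P G j).eval z) r =
        N131.SR.Tf (fun j z => (image P G j).eval z) r := rfl
    rw [h13] at h10
    have h14 := h7.trans h10
    unfold zeros
    nlinarith [h14]

/-- **The degree of rational curves, the flexes and the boundary points.** Let `N`, the degrees `d i`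
and `q`, and `M`, `e` be given. There are `B`, `C`, `D` such that for all forms `F i` of degree `d i`
and `Q` of degree `q` in `N + 1` variables, with `U` the complement of `Q = 0` in `F = 0`, for all
nonconstant maps `p = P(G)` from the affine line to the projective algebraic set `F = 0`, not
contained in `Q = 0`, where the `P_j` are forms of degree `e` and `G_0, ..., G_M` polynomials:

(1) the degree of `p` is at most `C` times the sum of the number of zeros of the Wronskian of `G`
and of the number of points `z` with `Q(p(z)) = 0`, without multiplicity; or for all `z` outside a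
discrete closed set there is a nonconstant morphism `p'` of degree at most `B` from the multiplicative group
to `U` with `p'(1) = p(z)`;

(2) if `F = 0` is irreducible and `U` is of log-general type, or only not covered by the morphisms
of bounded degree from the multiplicative group, then there is a form `A` of degree at most `D`
which does not vanish on `F = 0` such that this bound for the degree holds for all `p` which are
not contained in `A = 0`. -/
theorem result (N s : ℕ) (d : Fin s → ℕ) (q M e : ℕ) : ∃ (B : ℕ) (C : ℝ) (D : ℕ),
    ∀ (F : Fin s → MvPolynomial (Fin (N + 1)) ℂ) (Q : MvPolynomial (Fin (N + 1)) ℂ),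
      (∀ i, (F i).IsHomogeneous (d i)) → Q.IsHomogeneous q →
      (∀ (P : Fin (N + 1) → MvPolynomial (Fin (M + 1)) ℂ) (G : Fin (M + 1) → Polynomial ℂ) (k : ℕ)
        (g : Fin k → Polynomial ℂ), RatCurve F Q e P G g →
        (∀ j, ((image P G j).natDegree : ℝ) ≤
          C * (zeros (Wronskian g) + zeros (aeval (image P G) Q))) ∨
        ∀ᶠ z in codiscrete ℂ, ∃ p, Gm F Q B p ∧ ∀ j, (p j).eval 1 = (image P G j).eval z) ∧
      ((ideal F).IsPrime → LogGeneral F Q q ∨ Thin F Q →
        ∃ (A : MvPolynomial (Fin (N + 1)) ℂ) (m : ℕ), m ≤ D ∧ A.IsHomogeneous m ∧ A ∉ ideal F ∧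
          ∀ (P : Fin (N + 1) → MvPolynomial (Fin (M + 1)) ℂ) (G : Fin (M + 1) → Polynomial ℂ)
            (k : ℕ) (g : Fin k → Polynomial ℂ), RatCurve F Q e P G g → aeval (image P G) A ≠ 0 →
            ∀ j, ((image P G j).natDegree : ℝ) ≤
              C * (zeros (Wronskian g) + zeros (aeval (image P G) Q))) := by
  obtain ⟨B, C, D, h⟩ := BoundedDegreeFamilies.result N s d q M e
  refine ⟨B, |C|, D, fun F Q hF hQ => ?_⟩
  obtain ⟨h1, h2⟩ := h F Q hF hQ
  refine ⟨fun P G k g hr => ?_, fun hI hU => ?_⟩
  · rcases h1 _ (curveIn hr) (off hr.off) with h3 | h3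
    · exact Or.inl fun j => deg_le hr h3 j
    · exact Or.inr h3
  · obtain ⟨A, m, hm, hAh, hA, hall⟩ := h2 hI hU
    exact ⟨A, m, hm, hAh, hA, fun P G k g hr hrA j =>
      deg_le hr (hall _ (curveIn hr) (off hr.off) (off hrA)) j⟩

end Pool.Agent.Results.MP_c69980_ag.RationalCurvesFlexes
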